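import Pool.Agent.H54.Sp.FlatBox

set_option autoImplicit false
open Finset

/-! # The arcs of neighbouring tiles

Two edge neighbours outside of `P^p` with the same natural colour belong to the same arc. -/

namespace Pool.Agent.H54.Sp

open Pool.Agent.H75.Perc Pool.Agent.H75.TwoArm Pool.Agent.Q1 Pool.Agent.H33.Q1
open Pool.Agent.H69.Q1
open Pool.Agent.H46.Sp Pool.Agent.H46.Sp.Win
open Pool.Agent.H74.Win Pool.Agent.H42.Sp Pool.Agent.H13.Sp
open Pool.Agent.H13.R45 (ev gp ev_true ev_false Tg)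

variable {D : Win} {p : Bool} {s0 i r q q' x y : ℤ} {s : Sd} {g : ℤ × ℤ}

/-- equal or neighbouring positions -/
def Nx (D : Win) (q q' : ℤ) : Prop :=
  q = q' ∨ q' = q + 1 ∨ q = q' + 1 ∨ (q = 0 ∧ q' = 2 * D.h + 3) ∨ (q' = 0 ∧ q = 2 * D.h + 3)

lemma Nx.symm (h : Nx D q q') : Nx D q' q := by
  unfold Nx at h ⊢; omega

/-- neighbouring positions of one colour -/
theorem Nx.rep (hcut : colp D (s0 - 1) ≠ colp D s0) (h : Nx D q q') (hc : colp D q = colp D q') :
    rep D s0 q = rep D s0 q' := by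
  rcases h with h | h | h | ⟨h1, h2⟩ | ⟨h1, h2⟩
  · rw [h]
  · subst h
    exact (rep_adj hcut hc).symm
  · subst h
    exact rep_adj hcut hc.symm
  · have e : q' + 1 = q + nP D := by unfold nP; omega
    have h3 := rep_adj (D := D) (s0 := s0) (s := q') hcut (by rw [e, colp_add]; exact hc.symm)
    rw [e, rep_add] at h3
    exact h3
  · have e : q + 1 = q' + nP D := by unfold nP; omega
    have h3 := rep_adj (D := D) (s0 := s0) (s := q) hcut (by rw [e, colp_add]; exact hc)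
    rw [e, rep_add] at h3
    exact h3.symm

/-- the tile is outside of `P^p`, one of six kinds of positions -/
lemma ps_cases (h1 : ¬ InP D p x y) (h0 : -1 ≤ y) (h2 : y < D.h) :
    (x < D.m y ∧ ps D p x y = 2 * D.h + 2 - y) ∨ (D.M y ≤ x ∧ ps D p x y = y + 2) ∨
    (D.m y ≤ x ∧ x < D.M y ∧
      ((y + sh p = -1 ∧ ps D p x y = 0) ∨ (y + sh p = D.h ∧ ps D p x y = D.h + 2) ∨
       (0 ≤ y + sh p ∧ y + sh p < D.h ∧ x < D.a (y + sh p) ∧
         ps D p x y = 2 * D.h + 3 - y - 2 * sh p) ∨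
       (0 ≤ y + sh p ∧ y + sh p < D.h ∧ D.b (y + sh p) ≤ x ∧
         ps D p x y = y + 1 + 2 * sh p))) := by
  unfold H74.Win.InP at h1
  unfold ps
  rw [if_neg (by omega : ¬ y < -1), if_neg (by omega : ¬ D.h ≤ y)]
  by_cases c1 : x < D.m y
  · rw [if_pos c1]; exact Or.inl ⟨c1, rfl⟩
  rw [if_neg c1]
  by_cases c2 : D.M y ≤ x
  · rw [if_pos c2]; exact Or.inr (Or.inl ⟨c2, rfl⟩)
  rw [if_neg c2]
  refine Or.inr (Or.inr ⟨by omega, by omega, ?_⟩)
  cases p
  · rw [sh_false, add_zero] at h1 ⊢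
    rw [if_neg Bool.false_ne_true]
    by_cases c3 : y = -1
    · rw [if_pos c3]; exact Or.inl ⟨c3, rfl⟩
    rw [if_neg c3]
    by_cases c4 : x < D.a y
    · rw [if_pos c4]; exact Or.inr (Or.inr (Or.inl ⟨by omega, h2, c4, by omega⟩))
    · rw [if_neg c4]; exact Or.inr (Or.inr (Or.inr ⟨by omega, h2, by omega, by omega⟩))
  · rw [sh_true] at h1 ⊢
    rw [if_pos rfl]
    by_cases c3 : y = D.h - 1
    · rw [if_pos c3]; exact Or.inr (Or.inl ⟨by omega, rfl⟩)
    rw [if_neg c3]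
    by_cases c4 : x < D.a (y + 1)
    · rw [if_pos c4]; exact Or.inr (Or.inr (Or.inl ⟨by omega, by omega, c4, by omega⟩))
    · rw [if_neg c4]; exact Or.inr (Or.inr (Or.inr ⟨by omega, by omega, by omega, by omega⟩))

/-- the union contains the rows of `P^p` -/
lemma row_union (h0 : 0 ≤ y + sh p) (h1 : y + sh p < D.h) :
    D.m y ≤ D.a (y + sh p) ∧ D.b (y + sh p) ≤ D.M y ∧ D.a (y + sh p) + 2 ≤ D.b (y + sh p) :=
  ⟨m_le_row h0 h1 (shY p y), row_le_M h0 h1 (shY p y), D.ab _ h0 h1⟩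

/-- horizontal neighbours -/
theorem ps_h (h1 : ¬ InP D p x y) (h2 : ¬ InP D p (x + 1) y) :
    Nx D (ps D p x y) (ps D p (x + 1) y) := by
  have hh := D.hh
  by_cases c1 : y < -1
  · unfold ps
    rw [if_pos c1, if_pos c1]; exact Or.inl rfl
  by_cases c2 : D.h ≤ y
  · unfold ps
    rw [if_neg c1, if_neg c1, if_pos c2, if_pos c2]; exact Or.inl rfl
  have k1 := ps_cases h1 (by omega) (by omega)
  have k2 := ps_cases h2 (by omega) (by omega)
  have k3 := row_union (D := D) (p := p) (y := y)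
  have f5 := m_lt_M (D := D) (y := y) (by omega) (by omega)
  have hs := sh_cases p
  unfold Nx
  generalize ps D p x y = Q1 at *
  generalize ps D p (x + 1) y = Q2 at *
  generalize D.a (y + sh p) = A at *
  generalize D.b (y + sh p) = B at *
  generalize sh p = σ at *
  clear h1 h2
  rcases k1 with k1 | k1 | ⟨k1, k1', k1'' | k1'' | k1'' | k1''⟩ <;>
    rcases k2 with k2 | k2 | ⟨k2, k2', k2'' | k2'' | k2'' | k2''⟩ <;> omega

/-- vertical neighbours -/
theorem ps_v (h1 : ¬ InP D p x y) (h2 : ¬ InP D p x (y + 1)) :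
    Nx D (ps D p x y) (ps D p x (y + 1)) := by
  have hh := D.hh
  have hP0 := D.P0
  have hP1 := D.P1
  have hQ0 := D.Q0
  have hQ1 := D.Q1
  by_cases c1 : y < -2
  · unfold ps
    rw [if_pos (by omega), if_pos (by omega)]; exact Or.inl rfl
  by_cases c2 : D.h ≤ y
  · unfold ps
    rw [if_neg (by omega : ¬ y < -1), if_neg (by omega : ¬ y + 1 < -1), if_pos c2,
      if_pos (by omega : D.h ≤ y + 1)]
    exact Or.inl rfl
  have hs := sh_cases p
  by_cases c3 : y = -2
  · subst c3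
    have e1 : D.m (-1) = D.a 0 := by unfold m mm; rw [if_pos (by omega)]; rfl
    have e2 : D.M (-1) = D.b 0 := by unfold M Pool.Agent.H46.Sp.MM; rw [if_pos (by omega)]; rfl
    have e3 : ps D p x (-2) = 0 := by unfold ps; rw [if_pos (by norm_num)]
    rw [e3]
    rw [show (-2 : ℤ) + 1 = -1 by norm_num] at *
    have k2 := ps_cases h2 (by omega) (by omega)
    have k3 := row_union (D := D) (p := p) (y := -1)
    unfold Nx
    rcases hs with ⟨rfl, hs⟩ | ⟨rfl, hs⟩
    · rw [hs] at k2; omega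
    · rw [hs, show (-1 : ℤ) + 1 = 0 by norm_num] at k2 k3; omega
  by_cases c4 : y = D.h - 1
  · subst c4
    have e1 : D.m (D.h - 1) = D.a (D.h - 1) := by unfold m mm; rw [if_neg (by omega)]
    have e2 : D.M (D.h - 1) = D.b (D.h - 1) := by
      unfold M Pool.Agent.H46.Sp.MM; rw [if_neg (by omega)]
    have e3 : ps D p x (D.h - 1 + 1) = D.h + 2 := by
      unfold ps; rw [if_neg (by omega), if_pos (by omega)]
    rw [e3]
    have k1 := ps_cases h1 (by omega) (by omega)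
    have k3 := row_union (D := D) (p := p) (y := D.h - 1)
    unfold Nx
    rcases hs with ⟨rfl, hs⟩ | ⟨rfl, hs⟩
    · rw [hs, add_zero] at k1 k3; omega
    · rw [hs] at k1; omega
  have k1 := ps_cases h1 (by omega) (by omega)
  have k2 := ps_cases h2 (by omega) (by omega)
  have g1 : (y + 1 < D.yP ∧ D.m y = D.a (y + 1)) ∨ (D.yP ≤ y + 1 ∧ D.m y = D.a y) := by
    unfold m mm; split_ifs <;> omega
  have g2 : (y < D.yQ ∧ D.M y = D.b (y + 1)) ∨ (D.yQ ≤ y ∧ D.M y = D.b y) := by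
    unfold M Pool.Agent.H46.Sp.MM; split_ifs <;> omega
  have g1' : (y + 2 < D.yP ∧ D.m (y + 1) = D.a (y + 2)) ∨
      (D.yP ≤ y + 2 ∧ D.m (y + 1) = D.a (y + 1)) := by
    unfold m mm
    rw [show y + 1 + 1 = y + 2 by ring]
    split_ifs <;> omega
  have g2' : (y + 1 < D.yQ ∧ D.M (y + 1) = D.b (y + 2)) ∨
      (D.yQ ≤ y + 1 ∧ D.M (y + 1) = D.b (y + 1)) := by
    unfold M Pool.Agent.H46.Sp.MM
    rw [show y + 1 + 1 = y + 2 by ring]
    split_ifs <;> omega
  have f1 : D.m y ≤ D.a (y + 1) ∧ D.b (y + 1) ≤ D.M y := ⟨m_le_a' (by omega), b_le_M' (by omega)⟩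
  have f2 : D.m (y + 1) ≤ D.a (y + 1) ∧ D.b (y + 1) ≤ D.M (y + 1) :=
    ⟨m_le_a (by omega), b_le_M (by omega)⟩
  have f4 : D.a (y + 1) + 2 ≤ D.b (y + 1) := D.ab (y + 1) (by omega) (by omega)
  rcases hs with ⟨rfl, hs⟩ | ⟨rfl, hs⟩
  · have f3 : 0 ≤ y → D.m y ≤ D.a y ∧ D.b y ≤ D.M y ∧ D.a y + 2 ≤ D.b y ∧
        D.a y + 2 ≤ D.b (y + 1) ∧ D.a (y + 1) + 2 ≤ D.b y :=
      fun h => ⟨m_le_a h, b_le_M h, D.ab y h (by omega), D.ov1 y h (by omega),
        D.ov2 y h (by omega)⟩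
    unfold H74.Win.InP at h2
    rw [hs] at k1 k2 h2
    simp only [add_zero, mul_zero, sub_zero] at k1 k2 h2
    unfold Nx
    generalize ps D false x y = Q1 at *
    generalize ps D false x (y + 1) = Q2 at *
    clear h1
    rcases k1 with k1 | k1 | ⟨k1, k1', k1'' | k1'' | k1'' | k1''⟩ <;>
    rcases k2 with k2 | k2 | ⟨k2, k2', k2'' | k2'' | k2'' | k2''⟩ <;> omega
  · have f3 : y + 2 < D.h → D.m (y + 1) ≤ D.a (y + 2) ∧ D.b (y + 2) ≤ D.M (y + 1) ∧
        D.a (y + 2) + 2 ≤ D.b (y + 2) ∧ D.a (y + 1) + 2 ≤ D.b (y + 2) ∧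
        D.a (y + 2) + 2 ≤ D.b (y + 1) := fun h => by
      have k1 := D.ab (y + 2) (by omega) h
      have k2 := D.ov1 (y + 1) (by omega) (by omega)
      have k3 := D.ov2 (y + 1) (by omega) (by omega)
      have k4 := m_le_a' (D := D) (y := y + 1) (by omega)
      have k5 := b_le_M' (D := D) (y := y + 1) (by omega)
      rw [show y + 1 + 1 = y + 2 by ring] at k2 k3 k4 k5
      exact ⟨k4, k5, k1, k2, k3⟩
    unfold H74.Win.InP at h1
    rw [hs] at k1 k2 h1
    rw [show y + 1 + 1 = y + 2 by ring] at k2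
    simp only [mul_one] at k1 k2
    unfold Nx
    generalize ps D true x y = Q1 at *
    generalize ps D true x (y + 1) = Q2 at *
    clear h2
    rcases k1 with k1 | k1 | ⟨k1, k1', k1'' | k1'' | k1'' | k1''⟩ <;>
    rcases k2 with k2 | k2 | ⟨k2, k2', k2'' | k2'' | k2'' | k2''⟩ <;> omega

/-- **Horizontal neighbours of one colour.** -/
theorem arc_h (hcut : colp D (s0 - 1) ≠ colp D s0) (h1 : ¬ InP D p x y) (h2 : ¬ InP D p (x + 1) y)
    (hc : natc D p x y = natc D p (x + 1) y) : arc D p s0 (x + 1) y = arc D p s0 x y := by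
  refine ((ps_h h1 h2).rep hcut ?_).symm
  rw [colp_ps, colp_ps, hc]

/-- **Vertical neighbours of one colour.** -/
theorem arc_v (hcut : colp D (s0 - 1) ≠ colp D s0) (h1 : ¬ InP D p x y) (h2 : ¬ InP D p x (y + 1))
    (hc : natc D p x y = natc D p x (y + 1)) : arc D p s0 x (y + 1) = arc D p s0 x y := by
  refine ((ps_v h1 h2).rep hcut ?_).symm
  rw [colp_ps, colp_ps, hc]

/-- **Rectangles of outer tiles of one colour belong to one arc.** -/
theorem arc_rect (hcut : colp D (s0 - 1) ≠ colp D s0) {a b c d : ℤ} {κ : Bool}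
    (ho : ∀ x y, a ≤ x → x < b → c ≤ y → y < d → ¬ InP D p x y ∧ natc D p x y = κ)
    {x' y' : ℤ} (h1 : a ≤ x ∧ x < b ∧ c ≤ y ∧ y < d) (h2 : a ≤ x' ∧ x' < b ∧ c ≤ y' ∧ y' < d) :
    arc D p s0 x y = arc D p s0 x' y' := by
  have hor : ∀ n : ℕ, ∀ y, c ≤ y → y < d → a + n < b → arc D p s0 (a + n) y = arc D p s0 a y := by
    intro n
    induction n with
    | zero => intro y _ _ _; simp
    | succ n ih =>
      intro y k1 k2 k3
      push_cast at k3 ⊢
      rw [← ih y k1 k2 (by omega), ← add_assoc]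
      obtain ⟨e1, e2⟩ := ho (a + n) y (by omega) (by omega) k1 k2
      obtain ⟨e3, e4⟩ := ho (a + n + 1) y (by omega) (by omega) k1 k2
      exact arc_h hcut e1 e3 (by rw [e2, e4])
  have ver : ∀ n : ℕ, a < b → c + n < d → arc D p s0 a (c + n) = arc D p s0 a c := by
    intro n
    induction n with
    | zero => intro _ _; simp
    | succ n ih =>
      intro k1 k2
      push_cast at k2 ⊢
      rw [← ih k1 (by omega), ← add_assoc]
      obtain ⟨e1, e2⟩ := ho a (c + n) (by omega) (by omega) (by omega) (by omega)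
      obtain ⟨e3, e4⟩ := ho a (c + n + 1) (by omega) (by omega) (by omega) (by omega)
      exact arc_v hcut e1 e3 (by rw [e2, e4])
  have key : ∀ x y, a ≤ x ∧ x < b ∧ c ≤ y ∧ y < d → arc D p s0 x y = arc D p s0 a c := by
    intro x y h
    have e1 := hor (x - a).toNat y (by omega) (by omega) (by omega)
    have e2 := ver (y - c).toNat (by omega) (by omega)
    rw [show a + ((x - a).toNat : ℤ) = x by omega] at e1
    rw [show c + ((y - c).toNat : ℤ) = y by omega] at e2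
    rw [e1, e2]
  rw [key x y h1, key x' y' h2]

/-- **Flat boxes from the half plane and the natural colour.** -/
theorem flatBox_of_col (hcut : colp D (s0 - 1) ≠ colp D s0) {κ : Bool}
    (hin : ∀ x y, Sq g r x y → (InP D p x y ↔ 0 ≤ hS s g x y))
    (hcol : ∀ x y, Sq g r x y → hS s g x y < 0 → natc D p x y = κ)
    (h0 : Sq g r x y) (h1 : hS s g x y < 0) : FlatBox D p s0 s (arc D p s0 x y) g r := by
  refine ⟨hin, fun x' y' h2 h3 => ?_⟩
  have ho : ∀ u v, Sq g r u v → hS s g u v < 0 → ¬ InP D p u v ∧ natc D p u v = κ := by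
    intro u v k1 k2
    refine ⟨fun k3 => ?_, hcol u v k1 k2⟩
    have := (hin u v k1).1 k3
    omega
  unfold Sq at h0 h2 ho
  cases s <;> simp only [hS] at h1 h3 ho
  · exact arc_rect (a := g.1 - r) (b := g.1) (c := g.2 - r) (d := g.2 + r) hcut
      (fun u v _ _ _ _ => ho u v (by omega) (by omega)) (by omega) (by omega)
  · exact arc_rect (a := g.1) (b := g.1 + r) (c := g.2 - r) (d := g.2 + r) hcut
      (fun u v _ _ _ _ => ho u v (by omega) (by omega)) (by omega) (by omega)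
  · exact arc_rect (a := g.1 - r) (b := g.1 + r) (c := g.2 - r) (d := g.2) hcut
      (fun u v _ _ _ _ => ho u v (by omega) (by omega)) (by omega) (by omega)
  · exact arc_rect (a := g.1 - r) (b := g.1 + r) (c := g.2) (d := g.2 + r) hcut
      (fun u v _ _ _ _ => ho u v (by omega) (by omega)) (by omega) (by omega)

end Pool.Agent.H54.Sp
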