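import Pool.Agent.H31.Sp.Dat
import Pool.Agent.H46.Sp.FlatC
import Pool.Agent.H13.Sp.ArcC
import Pool.Agent.H20.Sp.WinX
import Pool.Agent.H54.Sp.Flat

set_option autoImplicit false
open Finset

/-! # The flat ties of a coarse window

`noFar` : a flat box contains no far label. `ek_mem` : the edge of a tie is a boundary edge. `box_FlD` : the box
around the inner end of a flat tie is flat. `flatD` : the field `flat` of the walls of a coarse window. -/

namespace Pool.Agent.H54.Sp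

open Pool.Agent.H33.Q1 (lt tt tt_lt)
open Pool.Agent.H46.Sp (Win)
open Pool.Agent.H46.Sp.Win
open Pool.Agent.H74.Win (InP sh OutB natc EN)
open Pool.Agent.H42.Sp (Sd)
open Pool.Agent.H13.Sp
open Pool.Agent.H13.R45 (gp ev)
open Pool.Agent.H39.Q1 (TF gm FlatL)
open Pool.Agent.H31.Sp
open Pool.Agent.H46.Sp.CG
open Pool.Agent.H20.Sp (Ports)

variable {D : Win} {p : Bool} {s0 i r m L N R x y u v X Y n H : ℤ} {A B : ℤ → ℤ} {s : Sd} {c : Bool}
  {g : ℤ × ℤ} {S : Finset (ℤ × ℤ)} {O : OutB D} {YP YQ : ℤ} {CL CR : ℤ → Bool}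

/-- **A flat box contains no far label.** -/
theorem FlatBox.noFar (hB : FlatBox D p s0 s i g r) (hO : Ports O N) (hN : r + 3 ≤ N)
    (h : Sq g (r - 1) x y) : lt (x, y) ∉ O.Wo := by
  intro hw
  have hxy : Sq g r x y := h.mono (by omega)
  have hbox : ∀ x y, (x < D.a (D.yP - 1) ∨ D.b D.yQ ≤ x) → Sq g r x y →
      Pool.Agent.H74.Win.natc D p x y = colp D i := by
    intro x y h1 h2
    refine hB.natc h2 ?_
    by_contra h3
    have := ((hB.inP x y h2).2 (by omega)).box
    omega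
  have hh := D.hh
  rcases hO x y (hB.inL hxy hN) hw with ⟨h1, h2, h3, h4⟩ | ⟨h1, h2, h3, h4⟩
  · apply h4
    have k1 := hbox x y (Or.inl h1) hxy
    have k2 := hbox x (y - 1) (Or.inl h1) (by unfold Sq at h ⊢; omega)
    rw [← colp_ps] at k1 k2
    have k3 : colp D (2 * D.h + 2 - y) = colp D i := by
      rw [← k1]
      by_cases h5 : y = D.h
      · subst h5
        rw [ps_top le_rfl]
        congr 1; ring
      · rw [ps_left h2 (by omega) (by have := m_min (D := D) h2 (by omega); omega)]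
    rw [k3, ← k2]
    by_cases h5 : y = -1
    · subst h5
      rw [ps_bot (by norm_num), show 2 * D.h + 3 - (-1) = 0 + nP D by unfold nP; ring, colp_add]
    · rw [ps_left (by omega) (by omega) (by
        have := m_min (D := D) (y := y - 1) (by omega) (by omega); omega)]
      congr 1; ring
  · apply h4
    have k1 := hbox x y (Or.inr h1) hxy
    have k2 := hbox x (y + 1) (Or.inr h1) (by unfold Sq at h ⊢; omega)
    rw [← colp_ps] at k1 k2
    have k3 : colp D (y + 2) = colp D i := by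
      rw [← k1]
      by_cases h5 : y = -2
      · subst h5
        rw [ps_bot (by norm_num)]
        congr 1
      · rw [ps_right (by omega) h3 (by have := M_max (D := D) (y := y) (by omega) h3; omega)]
    rw [k3, ← k2]
    by_cases h5 : y = D.h - 1
    · subst h5
      rw [ps_top (by omega)]
      congr 1; ring
    · rw [ps_right (by omega) (by omega) (by
        have := M_max (D := D) (y := y + 1) (by omega) (by omega); omega)]
      congr 1; ring

/-- the layer tile above or right of the inner end of a tie -/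
def tlg : Sd → ℤ × ℤ → ℤ × ℤ
  | .L, g => (g.1 - 1, g.2)
  | .R, g => (g.1, g.2)
  | .F, g => (g.1, g.2 - 1)
  | .C, g => (g.1, g.2)

lemma tie_ly (h : TieP D p s c u v) :
    LyA D p s (tlg s (bt s c (u, v))).1 (tlg s (bt s c (u, v))).2 := by
  have h1 := h.ly
  obtain ⟨-, h2, -⟩ := h
  cases s <;> cases c <;> simp only [gt, CA, bt, tlg, add_sub_cancel_right] at h1 h2 ⊢ <;> tauto

variable (C : CoarseC D n H A B YP YQ CL CR) (hcut : colp D (s0 - 1) ≠ colp D s0)

include C hcut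

/-- the edge of a tie -/
theorem tie_edge (h : TieP D p s c u v) :
    Ed H A B s ((bt s c (u, v)).1 / n) (((bt s c (u, v)).2 + sh p) / n) ∧
    (if verS s = true then (bt s c (u, v)).1 = n * ((bt s c (u, v)).1 / n)
      else (bt s c (u, v)).2 + sh p = n * (((bt s c (u, v)).2 + sh p) / n)) := by
  have h1 := tie_ly h
  generalize bt s c (u, v) = g at h1
  cases s <;> simp only [tlg] at h1
  · obtain ⟨k1, k2, k3, -⟩ := lyL_arc C hcut h1
    rw [sub_add_cancel] at k1 k2 k3
    exact ⟨⟨k2, k3⟩, by simpa [verS] using k1⟩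
  · obtain ⟨k1, k2, k3, -⟩ := lyR_arc C hcut h1
    exact ⟨⟨k3, k2⟩, by simpa [verS] using k1⟩
  · obtain ⟨k1, k2, k3, -⟩ := lyF_arc C hcut h1
    rw [show g.2 - 1 + sh p + 1 = g.2 + sh p by ring] at k1 k2 k3
    exact ⟨⟨k2, k3⟩, by simpa [verS] using k1⟩
  · obtain ⟨k1, k2, k3, -⟩ := lyC_arc C hcut h1
    exact ⟨⟨k3, k2⟩, by simpa [verS] using k1⟩

/-- the edge of a tie is a boundary edge -/
theorem ek_mem (h : TieP D p s c u v) : ek D n p (lt (u, v)) ∈ EdF H A B := by
  rw [ek_tie h, mem_EdF]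
  exact (tie_edge C hcut h).1

/-- flat boxes at the edges -/
theorem box_edge (hr : 2 * r + 8 ≤ n) (w : Kp H A B)
    (hl : if verS w.1.1 = true then g.1 = n * w.1.2.1 else g.2 + sh p = n * w.1.2.2)
    (h1 : if verS w.1.1 = true then n * w.1.2.2 + r + 3 ≤ g.2 + sh p ∧
        g.2 + sh p + r + 3 ≤ n * w.1.2.2 + n
      else n * w.1.2.1 + r + 3 ≤ g.1 ∧ g.1 + r + 3 ≤ n * w.1.2.1 + n) :
    FlatBox D p s0 w.1.1 (fwD D n H A B s0 w) g r := by
  obtain ⟨⟨s, X, Y⟩, hw⟩ := w
  rw [mem_EdF] at hw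
  unfold fwD
  simp only at *
  cases s
  · simp only [verS, if_true] at *
    obtain ⟨⟨e1, e2, e3, e4⟩, e5⟩ := hw
    have e6 : X = A Y := by
      by_contra h
      exact e5 ⟨e1, e2, by omega, by omega⟩
    subst e6
    rw [show vA D n H A B s0 (A Y) Y = aL D n s0 Y by
      unfold vA; rw [if_pos ⟨e1, e2, e3, e4⟩]]
    exact flat_L C hcut hr e1 e2 hl h1.1 h1.2
  · simp only [verS, if_true] at *
    obtain ⟨e5, e1, e2, e3, e4⟩ := hw
    have e6 : X = B Y := by
      by_contra h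
      exact e5 ⟨e1, e2, by omega, by omega⟩
    subst e6
    rw [show vA D n H A B s0 (B Y) Y = aR D n s0 Y by
      unfold vA; rw [if_neg e5]]
    exact flat_R C hcut hr e1 e2 hl h1.1 h1.2
  · simp only [verS, Bool.false_eq_true, if_false] at *
    obtain ⟨⟨e1, e2, e3, e4⟩, e5⟩ := hw
    unfold hA
    rw [if_pos ⟨e1, e2, e3, e4⟩]
    by_cases c1 : Y = 0
    · subst c1
      rw [if_pos rfl]
      exact flat_B C hr e3 e4 (by rw [hl]; ring) h1.1 h1.2
    rw [if_neg c1]
    by_cases c2 : X < A (Y - 1)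
    · rw [if_pos c2]
      exact flat_FL C hcut hr (by omega) e2 e3 c2 hl h1.1 h1.2
    · rw [if_neg c2]
      have c3 : B (Y - 1) ≤ X := by
        by_contra h
        exact e5 ⟨by omega, by omega, by omega, by omega⟩
      exact flat_FR C hcut hr (by omega) e2 c3 e4 hl h1.1 h1.2
  · simp only [verS, Bool.false_eq_true, if_false] at *
    obtain ⟨e5, e1, e2, e3, e4⟩ := hw
    unfold hA
    rw [if_neg e5]
    by_cases c1 : Y = H
    · subst c1
      rw [if_pos rfl]
      exact flat_T C hr e3 e4 hl h1.1 h1.2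
    rw [if_neg c1]
    by_cases c2 : X < A Y
    · rw [if_pos c2]
      exact flat_CL C hcut hr (by omega) (by omega) e3 c2 hl h1.1 h1.2
    · rw [if_neg c2]
      have c3 : B Y ≤ X := by
        by_contra h
        exact e5 ⟨by omega, by omega, by omega, by omega⟩
      exact flat_CR C hcut hr (by omega) (by omega) c3 e4 hl h1.1 h1.2

/-- a flat tie of a wall -/
lemma exists_FlD {w w0 : Kp H A B} {e : ℤ × ℤ} (he : e ∈ FlD D n H A B p w0 r w) :
    ∃ u v c, e = lt (u, v) ∧ TieP D p w.1.1 c u v ∧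
      (if verS w.1.1 = true then (bt w.1.1 c (u, v)).1 = n * w.1.2.1
        else (bt w.1.1 c (u, v)).2 + sh p = n * w.1.2.2) ∧
      (if verS w.1.1 = true then n * w.1.2.2 + r ≤ (bt w.1.1 c (u, v)).2 + sh p ∧
          (bt w.1.1 c (u, v)).2 + sh p + r ≤ n * w.1.2.2 + n
        else n * w.1.2.1 + r ≤ (bt w.1.1 c (u, v)).1 ∧
          (bt w.1.1 c (u, v)).1 + r ≤ n * w.1.2.1 + n) := by
  unfold FlD at he
  rw [mem_filter] at he
  obtain ⟨h1, h2, h3, h4⟩ := he
  obtain ⟨u, v, s, c, rfl, h⟩ := exists_tie h1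
  have h5 := ek_mem C hcut h
  have h6 : ek D n p (lt (u, v)) = w.1 := by
    rw [← h2]
    unfold wlD
    rw [dif_pos h5]
  have h7 := (tie_edge C hcut h).2
  rw [poD_tie h] at h3 h4
  rw [ek_tie h] at h6
  obtain ⟨⟨s', X, Y⟩, hw⟩ := w
  simp only [Prod.mk.injEq] at h6
  obtain ⟨rfl, rfl, rfl⟩ := h6
  refine ⟨u, v, c, rfl, h, h7, ?_⟩
  unfold bW at h3 h4
  simp only at h3 h4 ⊢
  split_ifs at h3 h4 ⊢ <;> omega

/-- **The box around the inner end of a flat tie is flat.** -/
theorem box_FlD {w w0 : Kp H A B} (hr : 2 * r + 8 ≤ n) {e : ℤ × ℤ}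
    (he : e ∈ FlD D n H A B p w0 (r + 3) w) :
    ∃ g, bA D p e = gp g ∧ FlatBox D p s0 w.1.1 (fwD D n H A B s0 w) g r ∧
      (4 ≤ r → ev g = colp D (fwD D n H A B s0 w)) := by
  obtain ⟨u, v, c, rfl, h1, h2, h3⟩ := exists_FlD C hcut he
  have hB : FlatBox D p s0 w.1.1 (fwD D n H A B s0 w) (bt w.1.1 c (u, v)) r := by
    refine box_edge C hcut hr w h2 ?_
    split_ifs at h3 ⊢ <;> omega
  refine ⟨_, h1.b, hB, fun h4 => ?_⟩
  have h5 : Sq (bt w.1.1 c (u, v)) (r - 3) u v := by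
    unfold Sq
    cases w.1.1 <;> cases c <;> simp only [bt] <;> omega
  rw [← ((hB.tie h5).1 h1).2.1]
  exact ev_bt h1.odd

/-- **The field `flat` of the walls of a coarse window.** -/
theorem flatD {w w0 : Kp H A B} (hn : 4 * R + 20 ≤ n) (hR : 0 ≤ R) (hS' : S ⊆ FR D p)
    (hm : 2 * R + 3 ≤ m) (hL : 2 * R + 7 ≤ L) (hO : Ports O N) (hN : 2 * R + 9 ≤ N) {e : ℤ × ℤ}
    (he : e ∈ FlD D n H A B p w0 (2 * R + 9) w) :
    FlatL (WA O p S) (EN D p) (TA D p) (TF (TA D p) (fmA D p s0) (fwD D n H A B s0 w))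
      (WlA D p s0 L S (fwD D n H A B s0 w)) (LaA D p s0 m (fwD D n H A B s0 w)) (bA D p) (oA D p)
      (colp D (fwD D n H A B s0 w)) (epD H A B w) (deD D n H A B s0 w) (bA D p e) (R + 1) := by
  obtain ⟨g, h1, h2, h3⟩ := box_FlD C hcut (r := 2 * R + 6) (by omega)
    (by rw [show 2 * R + 6 + 3 = 2 * R + 9 by ring]; exact he)
  rw [h1]
  unfold epD deD
  refine flatX (by rw [show 2 * (R + 1) + 4 = 2 * R + 6 by ring]; exact h2) (h3 (by omega)) hS'
    (by omega) (by omega) fun _ x y hx => ?_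
  exact h2.noFar hO (by omega) (hx.mono (by omega))

end Pool.Agent.H54.Sp
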